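import Pool.Agent.Helper93.KP.St

set_option autoImplicit false

/-!
# Project KP, module D6P: a sum bounded by logarithms
-/

namespace Pool.Agent.Helper66.KP

open Finset Filter Topology Pool.Agent.Helper93.KP
open Pool.Agent.Helper9.TW (gm)

private theorem sum1_D6P (z J : ℕ) (hz : 2 ≤ z) (hJ : z ≤ J) :
    ∑ j ∈ Ico z J, (1 : ℝ) / j ≤ Real.log ((J : ℝ) - 1) - Real.log ((z : ℝ) - 1) := by
  induction J, hJ using Nat.le_induction with
  | base => simp
  | succ J hJ ih =>
    rw [Finset.sum_Ico_succ_top hJ]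
    have h2 : (2 : ℝ) ≤ J := by
      have : 2 ≤ J := by omega
      exact_mod_cast this
    have h1 : 1 / (J : ℝ) ≤ Real.log (J : ℝ) - Real.log ((J : ℝ) - 1) := by
      rw [← Real.log_div (by linarith) (by linarith)]
      have h3 := Real.one_sub_inv_le_log_of_pos (show (0 : ℝ) < (J : ℝ) / ((J : ℝ) - 1) by
        apply div_pos <;> linarith)
      have h4 : 1 - ((J : ℝ) / ((J : ℝ) - 1))⁻¹ = 1 / (J : ℝ) := by
        have : (J : ℝ) - 1 ≠ 0 := by linarith
        field_simp
        ring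
      linarith
    have h5 : (((J + 1 : ℕ) : ℝ) - 1) = J := by push_cast; ring
    rw [h5]
    linarith

private theorem sum2_D6P (N z J : ℕ) (hJ : z ≤ J) (hN : J ≤ N) :
    Real.log ((N : ℝ) - z + 1) - Real.log ((N : ℝ) - J + 1) ≤ ∑ j ∈ Ico z J, (1 : ℝ) / ((N : ℝ) - j) := by
  induction J, hJ using Nat.le_induction with
  | base => simp
  | succ J hJ ih =>
    rw [Finset.sum_Ico_succ_top hJ]
    have h2 : (J : ℝ) + 1 ≤ N := by exact_mod_cast hN
    have h1 : Real.log ((N : ℝ) - J + 1) - Real.log ((N : ℝ) - J) ≤ 1 / ((N : ℝ) - J) := by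
      have hp : (0 : ℝ) < (N : ℝ) - J := by linarith
      rw [← Real.log_div (by linarith) (by linarith)]
      have h3 := Real.log_le_sub_one_of_pos (show (0 : ℝ) < ((N : ℝ) - J + 1) / ((N : ℝ) - J) by
        apply div_pos <;> linarith)
      have h4 : ((N : ℝ) - J + 1) / ((N : ℝ) - J) - 1 = 1 / ((N : ℝ) - J) := by
        field_simp; ring
      linarith
    have h5 : (N : ℝ) - ((J + 1 : ℕ) : ℝ) + 1 = (N : ℝ) - J := by push_cast; ring
    rw [h5]
    have := ih (by omega)
    linarith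

theorem hD6P : StD6P := by
  refine ⟨10000, fun u hu => ?_⟩
  have hx : (10000 : ℝ) ≤ (u : ℝ) := by exact_mod_cast hu
  have hx0 : (0 : ℝ) < (u : ℝ) := by linarith
  set x := (u : ℝ) with hxdef
  -- termwise bound
  have hterm : ∀ j ∈ Ico (5499 * u) (19679 * u), gm j * (1 - (j : ℝ) / (19679 * u)) *
      (3 * (5499 * u) / (21996 * u - ((j : ℝ) + 1))) ≤
      (1 + 1 / (2000 * x)) * (3 / 4 * (1 / (j : ℝ)) -
        (16497 * 2317 / (19679 * 21996)) * (1 / (((21996 * u : ℕ) : ℝ) - j))) := by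
    intro j hj
    rw [mem_Ico] at hj
    have h1 : 5499 * x ≤ j := by
      have : ((5499 * u : ℕ) : ℝ) ≤ j := by exact_mod_cast hj.1
      push_cast at this; exact this
    have h2 : (j : ℝ) + 1 ≤ 19679 * x := by
      have : ((j + 1 : ℕ) : ℝ) ≤ ((19679 * u : ℕ) : ℝ) := by exact_mod_cast hj.2
      push_cast at this; exact this
    have hj0 : (0 : ℝ) < j := by nlinarith
    have hg : gm j ≤ 1 / (j : ℝ) := by
      unfold gm
      have h3 := Real.log_le_sub_one_of_pos (show (0 : ℝ) < ((j : ℝ) + 1) / j by positivity)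
      have h4 : ((j : ℝ) + 1) / j - 1 = 1 / j := by field_simp; ring
      linarith
    have hq : 0 ≤ 1 - (j : ℝ) / (19679 * x) := by
      rw [sub_nonneg, div_le_one (by positivity)]; linarith
    have hd1 : 0 < 21996 * x - ((j : ℝ) + 1) := by linarith
    have hd2 : 0 < 21996 * x - (j : ℝ) := by linarith
    have h5 : gm j * (1 - (j : ℝ) / (19679 * x)) * (3 * (5499 * x) / (21996 * x - ((j : ℝ) + 1))) ≤
        1 / (j : ℝ) * (1 - (j : ℝ) / (19679 * x)) * (3 * (5499 * x) / (21996 * x - ((j : ℝ) + 1))) := by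
      apply mul_le_mul_of_nonneg_right _ (by positivity)
      exact mul_le_mul_of_nonneg_right hg hq
    refine le_trans h5 ?_
    have h6 : 3 * (5499 * x) / (21996 * x - ((j : ℝ) + 1)) ≤
        (1 + 1 / (2000 * x)) * (3 * (5499 * x) / (21996 * x - (j : ℝ))) := by
      rw [← mul_div_assoc, div_le_div_iff₀ hd1 hd2]
      have h7 : (21996 * x - (j : ℝ)) ≤ (1 + 1 / (2000 * x)) * (21996 * x - ((j : ℝ) + 1)) := by
        have h8 : 2317 * x ≤ 21996 * x - ((j : ℝ) + 1) := by linarith
        have h9 : 1 ≤ 1 / (2000 * x) * (21996 * x - ((j : ℝ) + 1)) := by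
          rw [div_mul_eq_mul_div, one_mul, le_div_iff₀ (by positivity)]; linarith
        linarith
      have h10 : 0 ≤ 3 * (5499 * x) := by positivity
      have := mul_le_mul_of_nonneg_left h7 h10
      linarith
    have h7 : 1 / (j : ℝ) * (1 - (j : ℝ) / (19679 * x)) * (3 * (5499 * x) / (21996 * x - ((j : ℝ) + 1))) ≤
        1 / (j : ℝ) * (1 - (j : ℝ) / (19679 * x)) *
          ((1 + 1 / (2000 * x)) * (3 * (5499 * x) / (21996 * x - (j : ℝ)))) :=
      mul_le_mul_of_nonneg_left h6 (by positivity)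
    refine le_trans h7 (le_of_eq ?_)
    have hcast : (((21996 * u : ℕ) : ℝ)) = 21996 * x := by push_cast; ring
    rw [hcast]
    have hw : 21996 * x - (j : ℝ) ≠ 0 := hd2.ne'
    have hj0' : (j : ℝ) ≠ 0 := hj0.ne'
    have hx0' : x ≠ 0 := hx0.ne'
    have key : 1 / (j : ℝ) * (1 - (j : ℝ) / (19679 * x)) * (3 * (5499 * x) / (21996 * x - (j : ℝ))) =
        3 / 4 * (1 / (j : ℝ)) - 16497 * 2317 / (19679 * 21996) * (1 / (21996 * x - (j : ℝ))) := by
      rw [← sub_eq_zero]
      have : 1 / (j : ℝ) * (1 - (j : ℝ) / (19679 * x)) * (3 * (5499 * x) / (21996 * x - (j : ℝ))) -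
        (3 / 4 * (1 / (j : ℝ)) - 16497 * 2317 / (19679 * 21996) * (1 / (21996 * x - (j : ℝ)))) =
        (3 * 5499 * (19679 * x - (j : ℝ)) / 19679 - 3 / 4 * (21996 * x - (j : ℝ)) +
          16497 * 2317 / (19679 * 21996) * (j : ℝ)) / ((j : ℝ) * (21996 * x - (j : ℝ))) := by
        rw [eq_div_iff (mul_ne_zero hj0' hw)]
        generalize 21996 * x - (j : ℝ) = w at hw
        field_simp
        ring
      rw [this]
      have h0 : 3 * 5499 * (19679 * x - (j : ℝ)) / 19679 - 3 / 4 * (21996 * x - (j : ℝ)) +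
          16497 * 2317 / (19679 * 21996) * (j : ℝ) = 0 := by ring
      rw [h0, zero_div]
    rw [← key]
    ring
  refine le_trans (Finset.sum_le_sum hterm) ?_
  rw [← Finset.mul_sum, Finset.sum_sub_distrib, ← Finset.mul_sum, ← Finset.mul_sum]
  have hs1 := sum1_D6P (5499 * u) (19679 * u) (by omega) (by omega)
  have hs2 := sum2_D6P (21996 * u) (5499 * u) (19679 * u) (by omega) (by omega)
  rw [← Real.log_div (by push_cast; nlinarith) (by push_cast; nlinarith)] at hs1 hs2
  push_cast at hs1 hs2 ⊢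
  rw [← hxdef] at hs1 hs2 ⊢
  have hl2 := Real.log_two_lt_d9
  have hl2' := Real.log_two_gt_d9
  have hL1 : Real.log ((19679 * x - 1) / (5499 * x - 1)) ≤
      2 * Real.log 2 + 64 * (99826237 / 100000000 - 1) := by
    have h1 : (19679 * x - 1) / (5499 * x - 1) ≤ 2 ^ 2 * (99826237 / 100000000) ^ 64 := by
      rw [div_le_iff₀ (by linarith)]
      have : (3578660 : ℝ) / 1000000 ≤ 2 ^ 2 * (99826237 / 100000000) ^ 64 := by norm_num
      have h2 : 19679 * x - 1 ≤ 3578660 / 1000000 * (5499 * x - 1) := by linarith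
      have h3 : 0 ≤ 5499 * x - 1 := by linarith
      have := mul_le_mul_of_nonneg_right this h3
      linarith
    have h2 : 0 < (19679 * x - 1) / (5499 * x - 1) := by apply div_pos <;> linarith
    have h3 := Real.log_le_log h2 h1
    rw [Real.log_mul (by norm_num) (by norm_num), Real.log_pow, Real.log_pow] at h3
    have h4 := Real.log_le_sub_one_of_pos (show (0 : ℝ) < 99826237 / 100000000 by norm_num)
    push_cast at h3
    linarith
  have hL2 : 3 * Real.log 2 + 64 * (1 - (99818072 / 100000000)⁻¹) ≤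
      Real.log ((21996 * x - 5499 * x + 1) / (21996 * x - 19679 * x + 1)) := by
    have h1 : (2 : ℝ) ^ 3 * (99818072 / 100000000) ^ 64 ≤
        (21996 * x - 5499 * x + 1) / (21996 * x - 19679 * x + 1) := by
      rw [le_div_iff₀ (by linarith)]
      have : (2 : ℝ) ^ 3 * (99818072 / 100000000) ^ 64 ≤ 711996 / 100000 := by norm_num
      have h3 : 0 ≤ 21996 * x - 19679 * x + 1 := by linarith
      have := mul_le_mul_of_nonneg_right this h3
      linarith
    have h2 : (0 : ℝ) < (2 : ℝ) ^ 3 * (99818072 / 100000000) ^ 64 := by norm_num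
    have h3 := Real.log_le_log h2 h1
    rw [Real.log_mul (by norm_num) (by norm_num), Real.log_pow, Real.log_pow] at h3
    have h4 := Real.one_sub_inv_le_log_of_pos (show (0 : ℝ) < 99818072 / 100000000 by norm_num)
    push_cast at h3
    linarith
  have hA : 3 / 4 * ∑ i ∈ Ico (5499 * u) (19679 * u), 1 / (i : ℝ) -
      16497 * 2317 / (19679 * 21996) * ∑ i ∈ Ico (5499 * u) (19679 * u), 1 / (21996 * x - (i : ℝ)) ≤
        78305 / 100000 := by
    norm_num at hL1 hL2 hs1 hs2 ⊢
    linarith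
  have hB : 1 + 1 / (2000 * x) ≤ 1 + 1 / 20000000 := by
    have : 1 / (2000 * x) ≤ 1 / 20000000 := by
      apply one_div_le_one_div_of_le <;> linarith
    linarith
  calc (1 + 1 / (2000 * x)) * _ ≤ (1 + 1 / (2000 * x)) * (78305 / 100000) :=
        mul_le_mul_of_nonneg_left hA (by positivity)
    _ ≤ (1 + 1 / 20000000) * (78305 / 100000) := mul_le_mul_of_nonneg_right hB (by norm_num)
    _ ≤ 7831 / 10000 := by norm_num

end Pool.Agent.Helper66.KP
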